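import Pool.Agent.H13.TD.CLR
import Pool.Agent.H2.ZA.VAL

/-!
# Zariski dense orbits in dimension three: zeros of a section on a curve (row CLZ)
-/

set_option autoImplicit false

open MvPolynomial
open Pool.Agent.H12.ZD (pmap v O Res DenseOrbit NoInv)
open Pool.Agent.H18.HIT
open Pool.Agent.H8.ZA (HFam Const NA sz)
open Pool.Agent.H8.TD

namespace Pool.Agent.H19.TD

/-- a general linear combination, in the form needed below -/
theorem exists_gen (hSSP : T_SSP) {k κ R Ω Γ : Type} [Field k] [Infinite k] [Field κ]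
    [Algebra k κ] [CommRing R] [Algebra κ R] [Algebra (Polynomial κ) R]
    [IsScalarTower κ (Polynomial κ) R] [Field Ω] [Algebra (Polynomial κ) Ω]
    [LinearOrderedCommGroupWithZero Γ] (w : Valuation Ω Γ)
    (hc : ∀ x : κ, x ≠ 0 → w (algebraMap (Polynomial κ) Ω (Polynomial.C x)) = 1)
    (s : Finset (R →ₐ[Polynomial κ] Ω)) {a : ℕ} (φ : Fin a → R) :
    ∃ (c : k) (t : Fin a → k), ∀ σ ∈ s,
      1 ≤ w (σ (algebraMap κ R (algebraMap k κ c) +
        ∑ i, algebraMap κ R (algebraMap k κ (t i)) * φ i)) ∧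
      ∀ i, w (σ (φ i)) ≤ w (σ (algebraMap κ R (algebraMap k κ c) +
        ∑ i, algebraMap κ R (algebraMap k κ (t i)) * φ i)) := by
  classical
  let _ : Algebra k Ω :=
    ((algebraMap (Polynomial κ) Ω).comp (Polynomial.C.comp (algebraMap k κ))).toAlgebra
  have hk : ∀ x : k, algebraMap k Ω x =
      algebraMap (Polynomial κ) Ω (Polynomial.C (algebraMap k κ x)) := fun x => rfl
  have hσ : ∀ (σ : R →ₐ[Polynomial κ] Ω) (x : k), σ (algebraMap κ R (algebraMap k κ x)) =
      algebraMap k Ω x := by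
    intro σ x
    have h1 : algebraMap κ R (algebraMap k κ x) =
        algebraMap (Polynomial κ) R (Polynomial.C (algebraMap k κ x)) := by
      rw [IsScalarTower.algebraMap_apply κ (Polynomial κ) R]
      rfl
    rw [h1, σ.commutes, hk]
  obtain ⟨c, t, h⟩ := hSSP k Ω Γ w (fun x hx => by
    rw [hk]
    exact hc _ ((map_ne_zero (algebraMap k κ)).2 hx)) s a (fun σ i => σ.1 (φ i))
  have heq : ∀ σ : R →ₐ[Polynomial κ] Ω, σ (algebraMap κ R (algebraMap k κ c) +
        ∑ i, algebraMap κ R (algebraMap k κ (t i)) * φ i) =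
        algebraMap k Ω c + lc t (fun i => σ (φ i)) := by
    intro σ
    unfold lc
    rw [map_add, map_sum, hσ]
    congr 1
    refine Finset.sum_congr rfl fun i _ => ?_
    rw [map_mul, hσ, Algebra.smul_def]
  refine ⟨c, t, fun σ hs => ?_⟩
  rw [heq σ]
  exact h ⟨σ, hs⟩

/-- the values of a section -/
theorem sec_bound {κ R Ω Γ : Type} [Field κ] [CommRing R] [Algebra κ R] [Field Ω]
    [LinearOrderedCommGroupWithZero Γ] (w : Valuation Ω Γ) (σ : R →+* Ω)
    (hc : ∀ x : κ, w (σ (algebraMap κ R x)) ≤ 1) {a b : ℕ} (φ : Fin a → R) (ψ : Fin b → R)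
    (n l : ℕ) (g g' : Γ) (hg : 1 ≤ g) (hg' : 1 ≤ g') (hφ : ∀ i, w (σ (φ i)) ≤ g)
    (hψ : ∀ i, w (σ (ψ i)) ≤ g') (S : R) (hS : S ∈ Wsp κ φ ψ n l) :
    w (σ S) ≤ g ^ n * g' ^ l := by
  classical
  have hprod : ∀ {m : ℕ} (χ : Fin m → R) (α : Fin m → ℕ) (N : ℕ) (G : Γ), 1 ≤ G →
      (∀ i, w (σ (χ i)) ≤ G) → ∑ i, α i ≤ N → w (σ (∏ i, χ i ^ α i)) ≤ G ^ N := by
    intro m χ α N G hG hχ hα
    rw [map_prod, map_prod]
    calc ∏ i, w (σ (χ i ^ α i)) ≤ ∏ i, G ^ α i := by
          refine Finset.prod_le_prod' fun i _ => ?_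
          rw [map_pow, map_pow]
          exact pow_le_pow_left' (hχ i) _
      _ = G ^ ∑ i, α i := Finset.prod_pow_eq_pow_sum _ _ _
      _ ≤ G ^ N := pow_le_pow_right' hG hα
  unfold Wsp at hS
  refine Submodule.span_induction (p := fun x _ => w (σ x) ≤ g ^ n * g' ^ l) ?_ ?_ ?_ ?_ hS
  · rintro x ⟨α, β, hα, hβ, rfl⟩
    rw [map_mul, map_mul]
    exact mul_le_mul' (hprod φ α n g hg hφ hα) (hprod ψ β l g' hg' hψ hβ)
  · rw [map_zero, map_zero]
    exact zero_le
  · intro x y _ _ hx hy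
    rw [map_add]
    exact w.map_add_le hx hy
  · intro x y _ hy
    rw [Algebra.smul_def, map_mul, map_mul]
    calc w (σ (algebraMap κ R x)) * w (σ y) ≤ 1 * (g ^ n * g' ^ l) := mul_le_mul' (hc x) hy
      _ = g ^ n * g' ^ l := one_mul _

/-- the bound for a ring which is finite over `κ[X]` -/
theorem curve_bound (hNRF : T_NRF) (hNVE : T_NVE) (hSSP : T_SSP) {k κ R : Type} [Field k]
    [Infinite k] [Field κ] [CharZero κ] [Algebra k κ] [CommRing R] [IsDomain R] [Algebra κ R]
    [Algebra (Polynomial κ) R] [IsScalarTower κ (Polynomial κ) R]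
    [Module.Finite (Polynomial κ) R]
    (hinj : Function.Injective (algebraMap (Polynomial κ) R)) {a b : ℕ} (φ : Fin a → R)
    (ψ : Fin b → R) (M M' n l : ℕ)
    (hM : ∀ (c : k) (t : Fin a → k), algebraMap κ R (algebraMap k κ c) +
        ∑ i, algebraMap κ R (algebraMap k κ (t i)) * φ i ≠ 0 →
      Module.finrank κ (R ⧸ Ideal.span {algebraMap κ R (algebraMap k κ c) +
        ∑ i, algebraMap κ R (algebraMap k κ (t i)) * φ i}) ≤ M)
    (hM' : ∀ (c : k) (t : Fin b → k), algebraMap κ R (algebraMap k κ c) +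
        ∑ i, algebraMap κ R (algebraMap k κ (t i)) * ψ i ≠ 0 →
      Module.finrank κ (R ⧸ Ideal.span {algebraMap κ R (algebraMap k κ c) +
        ∑ i, algebraMap κ R (algebraMap k κ (t i)) * ψ i}) ≤ M')
    (S : R) (hS : S ∈ Wsp κ φ ψ n l) (hS0 : S ≠ 0) :
    Module.Finite κ (R ⧸ Ideal.span {S}) ∧
      Module.finrank κ (R ⧸ Ideal.span {S}) ≤ n * M + l * M' := by
  classical
  -- the field of algebraic functions and its valuation
  obtain ⟨Ω, hΩF, hΩA, hΩC, hΩi⟩ : ∃ (Ω : Type) (_ : Field Ω) (_ : Algebra (Polynomial κ) Ω),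
      IsAlgClosed Ω ∧ Function.Injective (algebraMap (Polynomial κ) Ω) := by
    refine ⟨AlgebraicClosure (FractionRing (Polynomial κ)), inferInstance, inferInstance,
      inferInstance, ?_⟩
    rw [IsScalarTower.algebraMap_eq (Polynomial κ) (FractionRing (Polynomial κ))
      (AlgebraicClosure (FractionRing (Polynomial κ)))]
    exact (algebraMap (FractionRing (Polynomial κ))
      (AlgebraicClosure (FractionRing (Polynomial κ)))).injective.comp
      (IsFractionRing.injective (Polynomial κ) (FractionRing (Polynomial κ)))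
  obtain ⟨Γ, hΓ, w, hW, hw⟩ := Pool.Agent.H2.ZA.pf_VAL κ Ω hΩi
  obtain ⟨W, hWd⟩ : ∃ W, W = w (algebraMap (Polynomial κ) Ω Polynomial.X) := ⟨_, rfl⟩
  rw [← hWd] at hW hw
  have hconst : ∀ x : κ, x ≠ 0 → w (algebraMap (Polynomial κ) Ω (Polynomial.C x)) = 1 := by
    intro x hx
    rw [hw _ (by simpa using hx)]
    simp
  have hconst' : ∀ x : κ, w (algebraMap (Polynomial κ) Ω (Polynomial.C x)) ≤ 1 := by
    intro x
    by_cases hx : x = 0
    · rw [hx]; simp
    · rw [hconst x hx]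
  have hle : ∀ (p : Polynomial κ) (N : ℕ), p.natDegree ≤ N →
      w (algebraMap (Polynomial κ) Ω p) ≤ W ^ N := by
    intro p N hp
    by_cases h0 : p = 0
    · rw [h0]; simp
    · rw [hw p h0]
      exact pow_le_pow_right' hW.le hp
  obtain ⟨s, hs⟩ := hNVE κ R Ω hinj hΩi
  -- the value of a general linear combination
  have key : ∀ {m : ℕ} (χ : Fin m → R) (N : ℕ),
      (∀ (c : k) (t : Fin m → k), algebraMap κ R (algebraMap k κ c) +
        ∑ i, algebraMap κ R (algebraMap k κ (t i)) * χ i ≠ 0 →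
        Module.finrank κ (R ⧸ Ideal.span {algebraMap κ R (algebraMap k κ c) +
          ∑ i, algebraMap κ R (algebraMap k κ (t i)) * χ i}) ≤ N) →
      ∃ ζ : R, (∀ σ ∈ s, 1 ≤ w (σ ζ) ∧ ∀ i, w (σ (χ i)) ≤ w (σ ζ)) ∧
        ∏ σ ∈ s, w (σ ζ) ≤ W ^ N := by
    intro m χ N hN
    obtain ⟨c, t, h⟩ := exists_gen (k := k) hSSP w hconst s χ
    obtain ⟨ζ, hζ⟩ : ∃ ζ, ζ = algebraMap κ R (algebraMap k κ c) +
      ∑ i, algebraMap κ R (algebraMap k κ (t i)) * χ i := ⟨_, rfl⟩
    have h1 := hN c t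
    rw [← hζ] at h h1
    refine ⟨ζ, h, ?_⟩
    have h2 : ∏ σ ∈ s, w (σ ζ) =
        w (algebraMap (Polynomial κ) Ω (Algebra.norm (Polynomial κ) ζ)) := by
      rw [hs ζ, map_prod]
    by_cases hζ0 : ζ = 0
    · rcases s.eq_empty_or_nonempty with he | ⟨σ, hσ⟩
      · rw [he, Finset.prod_empty]
        exact one_le_pow_of_one_le' hW.le N
      · have h3 := (h σ hσ).1
        rw [hζ0, map_zero, map_zero] at h3
        exact absurd h3 (not_le.2 zero_lt_one)
    · rw [h2]
      refine hle _ N ?_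
      rw [← (hNRF κ R hinj ζ hζ0).2]
      exact h1 hζ0
  obtain ⟨ζ, hζ, hζN⟩ := key φ M hM
  obtain ⟨ζ', hζ', hζN'⟩ := key ψ M' hM'
  have hfin := hNRF κ R hinj S hS0
  refine ⟨hfin.1, ?_⟩
  rw [hfin.2]
  by_cases hN0 : Algebra.norm (Polynomial κ) S = 0
  · rw [hN0, Polynomial.natDegree_zero]
    exact Nat.zero_le _
  · have h1 : w (algebraMap (Polynomial κ) Ω (Algebra.norm (Polynomial κ) S)) ≤
        W ^ (n * M + l * M') := by
      rw [hs S, map_prod]
      calc ∏ σ ∈ s, w (σ S) ≤ ∏ σ ∈ s, (w (σ ζ) ^ n * w (σ ζ') ^ l) := by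
            refine Finset.prod_le_prod' fun σ hσ => ?_
            refine sec_bound (κ := κ) w (σ : R →+* Ω) (fun x => ?_) φ ψ n l _ _
              (hζ σ hσ).1 (hζ' σ hσ).1 (hζ σ hσ).2 (hζ' σ hσ).2 S hS
            have h2 : algebraMap κ R x = algebraMap (Polynomial κ) R (Polynomial.C x) := by
              rw [IsScalarTower.algebraMap_apply κ (Polynomial κ) R]
              rfl
            rw [h2]
            have h3 : (σ : R →+* Ω) (algebraMap (Polynomial κ) R (Polynomial.C x)) =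
              algebraMap (Polynomial κ) Ω (Polynomial.C x) := σ.commutes _
            rw [h3]
            exact hconst' x
        _ = (∏ σ ∈ s, w (σ ζ)) ^ n * (∏ σ ∈ s, w (σ ζ')) ^ l := by
            rw [Finset.prod_mul_distrib, Finset.prod_pow, Finset.prod_pow]
        _ ≤ (W ^ M) ^ n * (W ^ M') ^ l :=
            mul_le_mul' (pow_le_pow_left' hζN n) (pow_le_pow_left' hζN' l)
        _ = W ^ (n * M + l * M') := by
            rw [← pow_mul, ← pow_mul, ← pow_add]
            congr 1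
            ring
    rw [hw _ hN0] at h1
    exact (pow_le_pow_iff_right₀ hW).mp h1

open scoped IntermediateField.algebraAdjoinAdjoin in
/-- a curve is a finite cover of the line -/
theorem noether1 {κ C : Type} [Field κ] [Field C] [Algebra κ C]
    (hy : ∃ y : C, FiniteDimensional (IntermediateField.adjoin κ {y}) C) (R : Subalgebra κ C)
    (hR : R.FG) (hna : ∃ r : R, ¬ IsAlgebraic κ (r : C)) :
    ∃ h : Polynomial κ →ₐ[κ] R, Function.Injective h ∧ h.Finite := by
  have hft : Algebra.FiniteType κ R := R.fg_iff_finiteType.1 hR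
  obtain ⟨s, g, hg, hgf⟩ := exists_finite_inj_algHom_of_fg κ R
  have h3 : Algebra.trdeg κ C ≤ 1 := by
    obtain ⟨y, hy⟩ := hy
    have h1 : Algebra.IsAlgebraic (IntermediateField.adjoin κ {y}) C := inferInstance
    have h2 : Algebra.IsAlgebraic (Algebra.adjoin κ {y}) C :=
      (IsFractionRing.comap_isAlgebraic_iff (A := Algebra.adjoin κ {y})
        (K := IntermediateField.adjoin κ {y}) (C := C)).2 h1
    have h4 := Algebra.IsAlgebraic.trdeg_le_cardinalMk κ ({y} : Set C)
    simpa using h4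
  have h4 : AlgebraicIndependent κ (fun i : Fin s => (g (X i) : C)) := by
    have h5 : (aeval (fun i : Fin s => (g (X i) : C)) : MvPolynomial (Fin s) κ →ₐ[κ] C) =
        R.val.comp g := by
      refine MvPolynomial.algHom_ext fun i => ?_
      rw [aeval_X]
      rfl
    have h6 : Function.Injective
        (aeval (fun i : Fin s => (g (X i) : C)) : MvPolynomial (Fin s) κ →ₐ[κ] C) := by
      rw [h5]
      exact Subtype.val_injective.comp hg
    exact h6
  have h5 : s ≤ 1 := by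
    have h6 := h4.cardinalMk_le_trdeg.trans h3
    rw [Cardinal.mk_fin] at h6
    exact_mod_cast h6
  rcases Nat.lt_or_ge s 1 with hs | hs
  · obtain rfl : s = 0 := by omega
    exfalso
    obtain ⟨r, hr⟩ := hna
    apply hr
    have h6 : (algebraMap κ (MvPolynomial (Fin 0) κ)).IsIntegral := by
      refine RingHom.isIntegral_of_surjective _ fun p => ?_
      exact ⟨coeff 0 p, by
        rw [MvPolynomial.algebraMap_eq]
        exact (eq_C_of_isEmpty p).symm⟩
    have h7 : (g : MvPolynomial (Fin 0) κ →+* R).IsIntegral := hgf.to_isIntegral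
    have h8 := RingHom.IsIntegral.trans _ _ h6 h7 r
    have h9 : (g : MvPolynomial (Fin 0) κ →+* R).comp (algebraMap κ (MvPolynomial (Fin 0) κ)) =
        algebraMap κ R := g.comp_algebraMap
    rw [h9] at h8
    have h10 : IsIntegral κ (r : C) := IsIntegral.map R.val (h8 : IsIntegral κ r)
    exact h10.isAlgebraic
  · obtain rfl : s = 1 := by omega
    refine ⟨g.comp ((MvPolynomial.uniqueAlgEquiv κ (Fin 1)).symm :
      Polynomial κ →ₐ[κ] MvPolynomial (Fin 1) κ), ?_, ?_⟩
    · exact hg.comp (MvPolynomial.uniqueAlgEquiv κ (Fin 1)).symm.injective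
    · exact AlgHom.Finite.comp hgf
        (AlgHom.Finite.of_surjective _ (MvPolynomial.uniqueAlgEquiv κ (Fin 1)).symm.surjective)

/-- sections with values in the ring -/
theorem wsp_lift {κ C : Type} [Field κ] [Field C] [Algebra κ C] (R : Subalgebra κ C) {a b : ℕ}
    (φ : Fin a → R) (ψ : Fin b → R) (n l : ℕ) (S : R)
    (hS : (S : C) ∈ Wsp κ (fun i => (φ i : C)) (fun i => (ψ i : C)) n l) : S ∈ Wsp κ φ ψ n l := by
  have h1 : Wsp κ (fun i => (φ i : C)) (fun i => (ψ i : C)) n l ≤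
      Submodule.map R.val.toLinearMap (Wsp κ φ ψ n l) := by
    unfold Wsp
    rw [Submodule.span_le]
    rintro x ⟨α, β, hα, hβ, rfl⟩
    refine ⟨(∏ i, φ i ^ α i) * ∏ i, ψ i ^ β i, Submodule.subset_span ⟨α, β, hα, hβ, rfl⟩, ?_⟩
    have h2 : R.val.toLinearMap ((∏ i, φ i ^ α i) * ∏ i, ψ i ^ β i) =
        R.val ((∏ i, φ i ^ α i) * ∏ i, ψ i ^ β i) := rfl
    rw [h2, map_mul, map_prod, map_prod]
    simp only [map_pow, Subalgebra.coe_val]
  obtain ⟨r, hr, hrS⟩ := h1 hS
  have h2 : r = S := Subtype.ext hrS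
  rw [← h2]
  exact hr

theorem pf_CLZ (hNRF : T_NRF) (hNVE : T_NVE) (hSSP : T_SSP) (hLEN : T_LEN) : T_CLZ := by
  classical
  intro k κ C _ _ _ _ _ _ _ _ _ a b φ ψ M M' n l R hy hR hφR hψR hM hM' S hS hS0
  by_cases hna : ∃ r : R, ¬ IsAlgebraic κ (r : C)
  · obtain ⟨h, hinj, hfin⟩ := noether1 hy R hR hna
    let _ : Algebra (Polynomial κ) R := h.toRingHom.toAlgebra
    have hst : IsScalarTower κ (Polynomial κ) R :=
      IsScalarTower.of_algebraMap_eq fun x => (h.commutes x).symm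
    have hMF : Module.Finite (Polynomial κ) R := hfin
    have hi : Function.Injective (algebraMap (Polynomial κ) R) := hinj
    -- linear combinations
    have hlc : ∀ {m : ℕ} (χ : Fin m → C) (hχ : ∀ i, χ i ∈ R) (N : ℕ),
        (∀ s : Fin m → k, dg κ {lc s χ} ≤ N) → ∀ (c : k) (t : Fin m → k),
        algebraMap κ R (algebraMap k κ c) +
          ∑ i, algebraMap κ R (algebraMap k κ (t i)) * (⟨χ i, hχ i⟩ : R) ≠ 0 →
        Module.finrank κ (R ⧸ Ideal.span {algebraMap κ R (algebraMap k κ c) +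
          ∑ i, algebraMap κ R (algebraMap k κ (t i)) * (⟨χ i, hχ i⟩ : R)}) ≤ N := by
      intro m χ hχ N hN c t hne
      obtain ⟨z, hz⟩ : ∃ z : R, z =
        ∑ i, algebraMap κ R (algebraMap k κ (t i)) * (⟨χ i, hχ i⟩ : R) := ⟨_, rfl⟩
      have h1 : (z : C) = lc t χ := by
        rw [hz, AddSubmonoidClass.coe_finsetSum]
        unfold lc
        refine Finset.sum_congr rfl fun i _ => ?_
        rw [← algebraMap_smul κ (t i) (χ i), Algebra.smul_def]
        rfl
      rw [← hz] at hne ⊢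
      have h2 := (hLEN κ C R z (algebraMap k κ c) hy hne).2
      rw [h1] at h2
      exact h2.trans (hN t)
    exact curve_bound (k := k) hNRF hNVE hSSP hi (fun i => (⟨φ i, hφR i⟩ : R))
      (fun i => (⟨ψ i, hψR i⟩ : R)) M M' n l (hlc φ hφR M hM) (hlc ψ hψR M' hM') S
      (wsp_lift R (fun i => (⟨φ i, hφR i⟩ : R)) (fun i => (⟨ψ i, hψR i⟩ : R)) n l S hS) hS0
  · push Not at hna
    have h2 : (S : C)⁻¹ ∈ R := Subalgebra.inv_mem_of_algebraic R (hna S)
    have h3 : (S : C) ≠ 0 := fun h => hS0 (Subtype.ext h)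
    have h4 : S * ⟨_, h2⟩ = 1 := Subtype.ext (mul_inv_cancel₀ h3)
    have h5 : Ideal.span {S} = ⊤ :=
      Ideal.span_singleton_eq_top.2 (IsUnit.of_mul_eq_one _ h4)
    have h6 : Subsingleton (R ⧸ Ideal.span {S}) := Ideal.Quotient.subsingleton_iff.2 h5
    refine ⟨inferInstance, ?_⟩
    rw [Module.finrank_zero_of_subsingleton]
    exact Nat.zero_le _

end Pool.Agent.H19.TD
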