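import Pool.Agent.H13.TD.CLR

/-!
# Zariski dense orbits in dimension three: fibres of a function (row LEN)
-/

set_option autoImplicit false

open MvPolynomial
open Pool.Agent.H12.ZD (pmap v O Res DenseOrbit NoInv)
open Pool.Agent.H18.HIT
open Pool.Agent.H8.ZA (HFam Const NA sz)
open Pool.Agent.H8.TD

namespace Pool.Agent.H19.TD

/-- a field which is finite over `κ(y)` is generated by a finite set -/
theorem fg_of_fin {κ C : Type} [Field κ] [Field C] [Algebra κ C] (y : C)
    (hy : FiniteDimensional (IntermediateField.adjoin κ {y}) C) :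
    ∃ S : Set C, S.Finite ∧ IntermediateField.adjoin κ S = ⊤ := by
  obtain ⟨B, hB⟩ := hy.fg_top
  refine ⟨insert y (B : Set C), (B.finite_toSet).insert y, ?_⟩
  rw [eq_top_iff]
  intro x _
  have h1 : x ∈ Submodule.span (IntermediateField.adjoin κ {y}) (B : Set C) := by
    rw [hB]; trivial
  have h2 : IntermediateField.adjoin κ {y} ≤ IntermediateField.adjoin κ (insert y (B : Set C)) :=
    IntermediateField.adjoin.mono κ _ _ (by simp)
  refine Submodule.span_induction (p := fun x _ =>
    x ∈ IntermediateField.adjoin κ (insert y (B : Set C))) ?_ ?_ ?_ ?_ h1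
  · intro b hb
    exact IntermediateField.subset_adjoin κ _ (Set.mem_insert_of_mem _ hb)
  · exact zero_mem _
  · intro a b _ _ ha hb
    exact add_mem ha hb
  · intro a b _ hb
    rw [Algebra.smul_def]
    exact mul_mem (h2 a.2) hb

/-- functions independent modulo `c + z` are independent over the polynomials in `z` -/
theorem ind_poly {κ R : Type} [Field κ] [CommRing R] [IsDomain R] [Algebra κ R] (z : R) (c : κ)
    (hz : algebraMap κ R c + z ≠ 0) {ι : Type} [Fintype ι] (r : ι → R)
    (hr : ∀ g : ι → κ, (∑ i, algebraMap κ R (g i) * r i) ∈ Ideal.span {algebraMap κ R c + z} →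
      ∀ i, g i = 0) (n : ℕ) :
    ∀ p : ι → Polynomial κ, (∀ i, (p i).natDegree ≤ n) →
      ∑ i, Polynomial.aeval z (p i) * r i = 0 → ∀ i, p i = 0 := by
  have key : ∀ p : ι → Polynomial κ, ∑ i, Polynomial.aeval z (p i) * r i = 0 →
      (∀ i, (p i).eval (-c) = 0) ∧
      ∑ i, Polynomial.aeval z ((p i) /ₘ (Polynomial.X - Polynomial.C (-c))) * r i = 0 := by
    intro p hp
    have h1 : ∀ i, Polynomial.aeval z (p i) = algebraMap κ R ((p i).eval (-c)) +
        (algebraMap κ R c + z) *
          Polynomial.aeval z ((p i) /ₘ (Polynomial.X - Polynomial.C (-c))) := by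
      intro i
      have h2 := Polynomial.modByMonic_add_div (p i) (Polynomial.X - Polynomial.C (-c))
      have h3 := congrArg (Polynomial.aeval z) h2
      rw [Polynomial.modByMonic_X_sub_C_eq_C_eval, map_add, map_mul, Polynomial.aeval_C, map_sub,
        Polynomial.aeval_X, Polynomial.aeval_C, map_neg] at h3
      rw [← h3]
      ring
    have h4 : ∑ i, Polynomial.aeval z (p i) * r i =
        ∑ i, algebraMap κ R ((p i).eval (-c)) * r i + (algebraMap κ R c + z) *
          ∑ i, Polynomial.aeval z ((p i) /ₘ (Polynomial.X - Polynomial.C (-c))) * r i := by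
      rw [Finset.mul_sum, ← Finset.sum_add_distrib]
      refine Finset.sum_congr rfl fun i _ => ?_
      rw [h1 i]
      ring
    have h5 : ∀ i, (p i).eval (-c) = 0 := by
      apply hr
      have h6 : ∑ i, algebraMap κ R ((p i).eval (-c)) * r i = (algebraMap κ R c + z) *
          -(∑ i, Polynomial.aeval z ((p i) /ₘ (Polynomial.X - Polynomial.C (-c))) * r i) := by
        rw [hp] at h4
        linear_combination -h4
      rw [h6]
      exact Ideal.mul_mem_right _ _ (Ideal.subset_span rfl)
    refine ⟨h5, ?_⟩
    rw [hp] at h4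
    have h7 : ∑ i, algebraMap κ R ((p i).eval (-c)) * r i = 0 := by
      refine Finset.sum_eq_zero fun i _ => ?_
      rw [h5 i, map_zero, zero_mul]
    rw [h7, zero_add] at h4
    exact (mul_eq_zero.1 h4.symm).resolve_left hz
  induction n with
  | zero =>
    intro p hd hp i
    have h1 := (key p hp).1 i
    have h2 := Polynomial.eq_C_of_natDegree_le_zero (hd i)
    rw [h2, Polynomial.eval_C] at h1
    rw [h2, h1, Polynomial.C_0]
  | succ n ih =>
    intro p hd hp i
    obtain ⟨h1, h2⟩ := key p hp
    have h3 := ih _ (fun i => by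
      rw [Polynomial.natDegree_divByMonic _ (Polynomial.monic_X_sub_C _),
        Polynomial.natDegree_X_sub_C]
      have := hd i
      omega) h2 i
    have h4 := Polynomial.modByMonic_add_div (p i) (Polynomial.X - Polynomial.C (-c))
    rw [Polynomial.modByMonic_X_sub_C_eq_C_eval, h1 i, h3] at h4
    rw [← h4]
    simp

open scoped IntermediateField.algebraAdjoinAdjoin in
theorem pf_LEN : T_LEN := by
  classical
  intro κ C _ _ _ R z c hy hz
  by_cases halg : IsAlgebraic κ (z : C)
  · -- the function is a constant
    have h1 : IsAlgebraic κ ((algebraMap κ R c + z : R) : C) := by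
      have h2 : ((algebraMap κ R c + z : R) : C) = algebraMap κ C c + z := rfl
      rw [h2]
      exact (isAlgebraic_algebraMap c).add halg
    have h2 : ((algebraMap κ R c + z : R) : C)⁻¹ ∈ R := Subalgebra.inv_mem_of_algebraic R h1
    have h3 : ((algebraMap κ R c + z : R) : C) ≠ 0 := fun h => hz (Subtype.ext h)
    have h4 : (algebraMap κ R c + z) * ⟨_, h2⟩ = 1 := Subtype.ext (mul_inv_cancel₀ h3)
    have h5 : Ideal.span {algebraMap κ R c + z} = ⊤ :=
      Ideal.span_singleton_eq_top.2 (IsUnit.of_mul_eq_one _ h4)
    have h6 : Subsingleton (R ⧸ Ideal.span {algebraMap κ R c + z}) :=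
      Ideal.Quotient.subsingleton_iff.2 h5
    refine ⟨inferInstance, ?_⟩
    rw [Module.finrank_zero_of_subsingleton]
    exact Nat.zero_le _
  · have htr : Transcendental κ (z : C) := halg
    obtain ⟨y, hy'⟩ := hy
    obtain ⟨S, hS, hgen⟩ := fg_of_fin y hy'
    have hfin : FiniteDimensional (IntermediateField.adjoin κ {(z : C)}) C :=
      Pool.Agent.H13.TD.fin_of_tr ⟨y, hy'⟩ S hS hgen _ htr
    obtain ⟨d, hd⟩ : ∃ d, d = dg κ {(z : C)} := ⟨_, rfl⟩
    rw [← hd]
    have hrank : Module.rank κ (R ⧸ Ideal.span {algebraMap κ R c + z}) ≤ (d : ℕ) := by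
      refine rank_le fun s hs => ?_
      obtain ⟨r, hr⟩ : ∃ r : s → R, ∀ i, Ideal.Quotient.mk (Ideal.span {algebraMap κ R c + z})
          (r i) = i :=
        Classical.axiomOfChoice fun i : s => Ideal.Quotient.mk_surjective
          (i : R ⧸ Ideal.span {algebraMap κ R c + z})
      have hr' : ∀ g : s → κ, (∑ i, algebraMap κ R (g i) * r i) ∈
          Ideal.span {algebraMap κ R c + z} → ∀ i, g i = 0 := by
        intro g hg
        rw [← Ideal.Quotient.eq_zero_iff_mem, map_sum] at hg
        have h1 := Fintype.linearIndependent_iff.1 hs g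
        apply h1
        rw [← hg]
        refine Finset.sum_congr rfl fun i _ => ?_
        have h2 : algebraMap κ R (g i) * r i = g i • r i := (Algebra.smul_def _ _).symm
        rw [h2]
        change _ = g i • Ideal.Quotient.mk _ (r i)
        rw [hr i]
      have hli : LinearIndependent (Algebra.adjoin κ {(z : C)}) (fun i => (r i : C)) := by
        rw [Fintype.linearIndependent_iff]
        intro g hg
        have h1 : ∀ i, ∃ p : Polynomial κ, Polynomial.aeval (z : C) p = g i := by
          intro i
          have h2 : (g i : C) ∈ (Polynomial.aeval (R := κ) (z : C)).range := by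
            rw [← Algebra.adjoin_singleton_eq_range_aeval]
            exact (g i).2
          exact h2
        choose p hp using h1
        have h3 : ∑ i, Polynomial.aeval z (p i) * r i = 0 := by
          apply Subtype.ext
          rw [AddSubmonoidClass.coe_finsetSum]
          have h4 : ((0 : R) : C) = 0 := rfl
          rw [h4, ← hg]
          refine Finset.sum_congr rfl fun i _ => ?_
          have h5 : ((Polynomial.aeval z (p i) * r i : R) : C) =
              (Polynomial.aeval z (p i) : R) * (r i : C) := rfl
          rw [h5, Polynomial.aeval_subalgebra_coe, hp i]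
          rfl
        intro i
        have h6 := ind_poly z c hz r hr' (Finset.univ.sup fun i => (p i).natDegree) p
          (fun i => Finset.le_sup (f := fun i => (p i).natDegree) (Finset.mem_univ i)) h3 i
        apply Subtype.ext
        rw [← hp i, h6, map_zero]
        rfl
      have hli' : LinearIndependent (IntermediateField.adjoin κ {(z : C)})
          (fun i => (r i : C)) :=
        (LinearIndependent.iff_fractionRing (Algebra.adjoin κ {(z : C)})
          (IntermediateField.adjoin κ {(z : C)})).1 hli
      have h7 := hli'.fintype_card_le_finrank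
      rw [hd]
      rw [Fintype.card_coe] at h7
      exact h7
    have hf : Module.Finite κ (R ⧸ Ideal.span {algebraMap κ R c + z}) :=
      Module.rank_lt_aleph0_iff.1 (lt_of_le_of_lt hrank Cardinal.natCast_lt_aleph0)
    exact ⟨hf, Module.finrank_le_of_rank_le hrank⟩

end Pool.Agent.H19.TD
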