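import Pool.Agent.H8.TD.Targets

/-!
# Zariski dense orbits in dimension three: general linear combinations (row SSP)
-/

set_option autoImplicit false

open MvPolynomial
open Pool.Agent.H12.ZD (pmap v O Res DenseOrbit NoInv)
open Pool.Agent.H18.HIT
open Pool.Agent.H8.ZA (HFam Const NA sz)
open Pool.Agent.H8.TD

namespace Pool.Agent.H19.TD

theorem pf_SSP : T_SSP := by
  classical
  intro k Ω Γ _ _ _ _ _ w hw ι _ a φ
  obtain ⟨Φ, hΦ1, hΦ2⟩ : ∃ Φ : ι → Option (Fin a) → Ω, (∀ j, Φ j none = 1) ∧
      (∀ j i, Φ j (some i) = φ j i) :=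
    ⟨fun j o => o.elim 1 (φ j), fun j => rfl, fun j i => rfl⟩
  have hmax : ∀ j, ∃ m : Option (Fin a), ∀ o, w (Φ j o) ≤ w (Φ j m) := fun j =>
    Finite.exists_max fun o => w (Φ j o)
  choose m hm using hmax
  have h1 : ∀ j, 1 ≤ w (Φ j (m j)) := by
    intro j
    have h := hm j none
    rwa [hΦ1, map_one] at h
  have h0 : ∀ j, (0 : Γ) < w (Φ j (m j)) := fun j => lt_of_lt_of_le zero_lt_one (h1 j)
  obtain ⟨U, hU⟩ : ∃ U : ι → Submodule k (k × (Fin a → k)), ∀ j p,
      p ∈ U j ↔ w (algebraMap k Ω p.1 + lc p.2 (φ j)) < w (Φ j (m j)) := by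
    refine ⟨fun j =>
      { carrier := {p | w (algebraMap k Ω p.1 + lc p.2 (φ j)) < w (Φ j (m j))}
        add_mem' := ?_
        zero_mem' := ?_
        smul_mem' := ?_ }, fun j p => Iff.rfl⟩
    · intro p q hp hq
      have h2 : algebraMap k Ω (p + q).1 + lc (p + q).2 (φ j) =
          (algebraMap k Ω p.1 + lc p.2 (φ j)) + (algebraMap k Ω q.1 + lc q.2 (φ j)) := by
        unfold lc
        simp only [Prod.fst_add, Prod.snd_add, Pi.add_apply, add_smul, Finset.sum_add_distrib,
          map_add]
        ring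
      change w _ < _
      rw [h2]
      exact w.map_add_lt hp hq
    · have h2 : algebraMap k Ω (0 : k × (Fin a → k)).1 + lc (0 : k × (Fin a → k)).2 (φ j) = 0 := by
        unfold lc
        simp
      change w _ < _
      rw [h2, map_zero]
      exact h0 j
    · intro c p hp
      have h2 : algebraMap k Ω (c • p).1 + lc (c • p).2 (φ j) =
          algebraMap k Ω c * (algebraMap k Ω p.1 + lc p.2 (φ j)) := by
        unfold lc
        have h3 : ∀ i, (c • p).2 i • φ j i = algebraMap k Ω c * (p.2 i • φ j i) := by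
          intro i
          rw [Prod.smul_snd, Pi.smul_apply, smul_assoc, Algebra.smul_def c]
        rw [Finset.sum_congr rfl fun i _ => h3 i, ← Finset.mul_sum, Prod.smul_fst, smul_eq_mul,
          map_mul, mul_add]
      change w _ < _
      rw [h2, map_mul]
      by_cases hc : c = 0
      · rw [hc, map_zero, map_zero, zero_mul]
        exact h0 j
      · rw [hw c hc, one_mul]
        exact hp
  have hne : ∀ j, U j ≠ ⊤ := by
    intro j htop
    rcases hmj : m j with _ | i
    · have h2 : ((1 : k), (0 : Fin a → k)) ∈ U j := by rw [htop]; trivial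
      rw [hU, hmj, hΦ1] at h2
      have h3 : algebraMap k Ω 1 + lc (0 : Fin a → k) (φ j) = 1 := by
        unfold lc
        simp
      rw [h3] at h2
      exact lt_irrefl _ h2
    · have h2 : ((0 : k), (Pi.single i 1 : Fin a → k)) ∈ U j := by rw [htop]; trivial
      rw [hU, hmj, hΦ2] at h2
      have h3 : algebraMap k Ω 0 + lc (Pi.single i 1 : Fin a → k) (φ j) = φ j i := by
        unfold lc
        rw [map_zero, zero_add, Finset.sum_eq_single i]
        · simp
        · intro b _ hb
          simp [Pi.single_eq_of_ne hb]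
        · intro h
          exact absurd (Finset.mem_univ i) h
      rw [h3] at h2
      exact lt_irrefl _ h2
  have hcov : ⋃ j, (U j : Set (k × (Fin a → k))) ≠ Set.univ := by
    intro h
    obtain ⟨j, hj⟩ := Subspace.exists_eq_top_of_iUnion_eq_univ h
    exact hne j hj
  obtain ⟨p, hp⟩ := (Set.ne_univ_iff_exists_notMem _).1 hcov
  refine ⟨p.1, p.2, fun j => ?_⟩
  have h2 : w (Φ j (m j)) ≤ w (algebraMap k Ω p.1 + lc p.2 (φ j)) := by
    rw [← not_lt]
    intro h
    exact hp (Set.mem_iUnion.2 ⟨j, (hU j p).2 h⟩)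
  refine ⟨(h1 j).trans h2, fun i => ?_⟩
  rw [← hΦ2 j i]
  exact (hm j (some i)).trans h2

end Pool.Agent.H19.TD
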